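import Pool.Agent.R443.FT3
import Pool.Agent.V11294.M2.Rat

/-!
# MP_552068_nt: `p ^ 2` divides the alternating sum of the `a(k)`, `k < p`, when `(p/7) = -1`

`a(n) = ∑_k (-16)^k C(n,k)^2 C(n-k,k)^2 = ∑_j (-16)^j C(2j,j)^2 C(n,2j)^2`. By a certificate of the team library
`16^j ∑_{k<p} (-1)^k C(k,2j)^2` is congruent to `(-1)^j C(2j,j)` modulo `p ^ 2`, so that the alternating sum is
congruent to `∑_j C(2j,j)^3` modulo `p ^ 2`. This is by Clausen's formula modulo `p ^ 2` a square in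
`(ZMod p^2)[ω]`, `ω ^ 2 = ω - 2`, of an element which is divisible by `p` when `(p/7) = -1`.
-/

set_option autoImplicit false

namespace Pool.Agent.Results.MP_552068_nt.InertPrimes

open Finset

/-- `a(n) = ∑_{0 ≤ k ≤ n} (-16)^k C(n,k)^2 C(n-k,k)^2`. -/
def a (n : ℕ) : ℤ :=
  ∑ k ∈ range (n + 1), (-16) ^ k * (n.choose k : ℤ) ^ 2 * ((n - k).choose k : ℤ) ^ 2

open Pool.Agent.R443.FT in
/-- The alternating sum in terms of the sums `F j p`. -/
theorem alt_eq (n J : ℕ) (h : n ≤ 2 * J) :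
    ∑ k ∈ range n, (-1) ^ k * a k =
      ∑ j ∈ range J, ((Nat.centralBinom j : ℕ) : ℤ) ^ 2 * (-16) ^ j * F j n := by
  have h1 : ∑ k ∈ range n, (-1) ^ k * a k = ∑ k ∈ range n, ∑ j ∈ range J, (-1) ^ k *
      (((Nat.centralBinom j : ℕ) : ℤ) ^ 2 * (-16) ^ j * ((Nat.choose k (2 * j) : ℕ) : ℤ) ^ 2) := by
    refine Finset.sum_congr rfl ?_
    intro k hk
    rw [Finset.mem_range] at hk
    have h2 := a_eq k J (by omega)
    rw [← Finset.mul_sum, ← h2]
    rfl
  rw [h1, Finset.sum_comm]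
  refine Finset.sum_congr rfl ?_
  intro j _
  unfold F
  rw [Finset.mul_sum]
  refine Finset.sum_congr rfl ?_
  intro k _
  ring

open Pool.Agent.V11294.M2 in
/-- `(-7)^n = -1` modulo `p` if `(p/7) = -1`. -/
theorem neg_seven_pow (p n : ℕ) (hp : p.Prime) (hpn : p = 2 * n + 1)
    (h : jacobiSym (p : ℤ) 7 = -1) : (p : RR p) * (-7) ^ n = (p : RR p) * (-1) := by
  have hf := Fact.mk hp
  have hp2 : p ≠ 2 := by omega
  have h1 : ((legendreSym p (-7) : ℤ) : ZMod p) = ((-7 : ℤ) : ZMod p) ^ (p / 2) :=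
    legendreSym.eq_pow p (-7)
  rw [Pool.Agent.R443.FT.neg_seven hp2, h, show p / 2 = n by omega] at h1
  have h2 : (((-7) ^ n + 1 : ℤ) : ZMod p) = 0 := by
    push_cast at h1 ⊢
    rw [← h1]
    ring
  rw [ZMod.intCast_zmod_eq_zero_iff_dvd] at h2
  obtain ⟨k, hk⟩ := h2
  have hPP := (ctx_RR p n hp hpn).hP
  have hk' := congrArg (Int.cast (R := RR p)) hk
  push_cast at hk'
  linear_combination (p : RR p) * hk' + (k : RR p) * hPP

open Pool.Agent.V11294.M2 in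
/-- **Answer to Q1.** If `p` is a prime, `p ≡ 3, 5, 6 (mod 7)`, then `p ^ 2` divides
`∑_{k < p} (-1)^k a(k)`. -/
theorem result (p : ℕ) (hp : p.Prime) (h7 : p % 7 = 3 ∨ p % 7 = 5 ∨ p % 7 = 6) :
    (p : ℤ) ^ 2 ∣ ∑ k ∈ range p, (-1) ^ k * a k := by
  have hp2 : p ≠ 2 := by rintro rfl; omega
  have hp7 : p ≠ 7 := by rintro rfl; omega
  obtain ⟨n, hn⟩ : Odd p := hp.odd_of_ne_two hp2
  have hJ : jacobiSym (p : ℤ) 7 = -1 := by
    rw [jacobiSym.mod_left]
    rcases h7 with h | h | h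
    · rw [show (p : ℤ) % (7 : ℕ) = 3 by omega]; norm_num
    · rw [show (p : ℤ) % (7 : ℕ) = 5 by omega]; norm_num
    · rw [show (p : ℤ) % (7 : ℕ) = 6 by omega]; norm_num
  have hx := ctx_RR p n hp hn
  have hw := om_eq p
  have hw' : (1 - om p) ^ 2 - (1 - om p) + 2 = 0 := by linear_combination hw
  have hin : (p : RR p) * (1 - om p) ^ p = p * om p := by
    have h2 := P_w_pow hx hp (1 - om p) (-1) hw' (neg_seven_pow p n hp hn hJ)
    have ht := hx.ht
    linear_combination h2 + p * om p * ht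
  have h0 := F_one_inert p n hp hn hp7 (om p) hw hin
  apply intCast_RR_eq_zero
  rw [alt_eq p (n + 1) (by omega)]
  push_cast
  rw [← h0]
  refine Finset.sum_congr rfl fun j hj => ?_
  rw [Finset.mem_range] at hj
  obtain ⟨u, hu⟩ := Pool.Agent.R443.FT.F_mod hp hp2 j (by omega)
  have hu' := congrArg (Int.cast (R := RR p)) hu
  push_cast at hu'
  have hPP := hx.hP
  unfold ff cb
  have e1 : ((-16 : RR p)) ^ j = (-1) ^ j * 16 ^ j := by rw [← mul_pow]; norm_num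
  have e2 : ((-1 : RR p)) ^ j * (-1) ^ j = 1 := by rw [← mul_pow]; norm_num
  rw [e1]
  linear_combination ((Nat.centralBinom j : ℕ) : RR p) ^ 2 * (-1) ^ j * hu' +
    ((Nat.centralBinom j : ℕ) : RR p) ^ 3 * e2 +
    ((Nat.centralBinom j : ℕ) : RR p) ^ 2 * (-1) ^ j * (u : RR p) * hPP

end Pool.Agent.Results.MP_552068_nt.InertPrimes
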